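import Pool.Agent.Helper6.AVD.Main
import Pool.Agent.Helper6.AVD.St.L4
import Pool.Agent.Helper6.AVD.St.Q1
import Pool.Agent.Helper6.AVD.St.Q2

set_option autoImplicit false

namespace Pool.Agent.Results.MP_2c33f4_co.LargeDegree

open Pool.Agent.Helper6.AVD

/-- There is `Δ₀` such that every finite simple graph `G` with maximum degree `Δ ≥ Δ₀` has a proper
open conflict-free edge colouring with `Δ + 3` colours. -/
theorem result : ∃ Δ₀ : ℕ, ∀ (V : Type) [Fintype V] [DecidableEq V] (G : SimpleGraph V)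
    [DecidableRel G.Adj], Δ₀ ≤ G.maxDegree →
    ∃ c : G.edgeSet → Fin (G.maxDegree + 3), IsPOCF G c := by
  obtain ⟨D₀, hD₀⟩ := main_mg
  refine ⟨max D₀ 1000, ?_⟩
  intro V _ _ G _ hG
  have h1 : D₀ ≤ G.maxDegree := le_trans (le_max_left _ _) hG
  have h2 : 1000 ≤ G.maxDegree := le_trans (le_max_right _ _) hG
  obtain ⟨c₀, hp, hQ, hhi⟩ := mg_part G.maxDegree (hD₀ _ h1) V G (fun v => G.degree_le_maxDegree v)
  obtain ⟨c, hc, hag, hbad⟩ := low_part G G.maxDegree h2 c₀ hp hQ
  refine ⟨fun e => c e.1, toPOCF G c hc ?_⟩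
  intro u v huv hdeg h2' hpal
  by_cases hu : Low G G.maxDegree u
  · have hv : Low G G.maxDegree v := by
      unfold Low at hu ⊢
      rw [← hdeg]
      exact hu
    exact hbad (u, v) ⟨huv, hu, hv, hdeg, h2', hpal⟩
  · have hv : ¬ Low G G.maxDegree v := by
      unfold Low at hu ⊢
      rw [← hdeg]
      exact hu
    have hg : ∀ x, ¬ Low G G.maxDegree x → gpal G c₀ x = gpal G c x := by
      intro x hx
      unfold gpal
      apply Finset.image_congr
      intro w hw
      rw [SimpleGraph.coe_neighborFinset, SimpleGraph.mem_neighborSet] at hw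
      exact hag x w hw (fun h => hx h.1)
    apply hhi u v huv hu hv hdeg
    rw [hg u hu, hg v hv, hpal]

end Pool.Agent.Results.MP_2c33f4_co.LargeDegree
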